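import Pool.Agent.R974.BW.Defs

set_option autoImplicit false

namespace Pool.Agent.R653.BWKB1

open MeasureTheory ProbabilityTheory Filter Topology Set
open Pool.Agent.R974.BW
open scoped ENNReal NNReal

private theorem hk_eq (t : ℝ≥0) (x y : ℝ) :
    hk t x y = gaussianPDFReal 0 t (y - x) - gaussianPDFReal 0 t (y + x) := by
  unfold hk gaussianPDFReal
  simp only [sub_zero]
  ring

private theorem p_neg (t : ℝ≥0) (z : ℝ) : gaussianPDFReal 0 t (-z) = gaussianPDFReal 0 t z := by
  unfold gaussianPDFReal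
  simp

private theorem p_anti (t : ℝ≥0) (ht : 0 < t) {a b : ℝ} (h : a ^ 2 ≤ b ^ 2) :
    gaussianPDFReal 0 t b ≤ gaussianPDFReal 0 t a := by
  unfold gaussianPDFReal
  simp only [sub_zero]
  apply mul_le_mul_of_nonneg_left _ (by positivity)
  apply Real.exp_le_exp.mpr
  have ht' : (0 : ℝ) < t := by exact_mod_cast ht
  rw [neg_div, neg_div]
  apply neg_le_neg
  exact div_le_div_of_nonneg_right h (by positivity)

private theorem hk_nonneg (t : ℝ≥0) (ht : 0 < t) {x y : ℝ} (hx : 0 < x) (hy : 0 < y) :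
    0 ≤ hk t x y := by
  rw [hk_eq]
  have := p_anti t ht (a := y - x) (b := y + x) (by nlinarith)
  linarith

private theorem int_sq (t : ℝ≥0) (ht : 0 < t) :
    Integrable (fun z : ℝ => z ^ 2 * gaussianPDFReal 0 t z) ∧
      ∫ z : ℝ, z ^ 2 * gaussianPDFReal 0 t z = t := by
  have ht0 : t ≠ 0 := ne_of_gt ht
  have ht' : (0 : ℝ) < t := by exact_mod_cast ht
  constructor
  · have h := integrable_rpow_mul_exp_neg_mul_sq (b := (2 * (t : ℝ))⁻¹) (by positivity)
      (s := 2) (by norm_num)
    have h2 := h.const_mul (Real.sqrt (2 * Real.pi * t))⁻¹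
    refine h2.congr (ae_of_all _ fun z => ?_)
    unfold gaussianPDFReal
    simp only [sub_zero, Real.rpow_two]
    have : -(2 * (t : ℝ))⁻¹ * z ^ 2 = -z ^ 2 / (2 * t) := by
      field_simp
    rw [this]
    ring
  · have h1 := integral_gaussianReal_eq_integral_smul (μ := 0) (v := t) (f := fun z : ℝ => z ^ 2) ht0
    have h2 : Var[id; gaussianReal 0 t] = t := variance_id_gaussianReal
    have h3 : Var[id; gaussianReal 0 t] = ∫ z, z ^ 2 ∂(gaussianReal 0 t) := by
      rw [variance_of_integral_eq_zero measurable_id.aemeasurable]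
      · rfl
      · simpa using integral_id_gaussianReal (μ := 0) (v := t)
    rw [h2] at h3
    rw [← h3] at h1
    rw [h1]
    congr 1
    ext z
    simp only [smul_eq_mul]
    ring

private theorem int_G (t : ℝ≥0) (ht : 0 < t) (G : ℝ → ℝ) (hG : Measurable G)
    (hb : ∀ z, |G z| ≤ 1 + z ^ 2) (c : ℝ) :
    Integrable (fun z : ℝ => G (z + c) * gaussianPDFReal 0 t z) := by
  have h1 : Integrable (fun z : ℝ => (1 + 2 * c ^ 2) * gaussianPDFReal 0 t z +
      2 * (z ^ 2 * gaussianPDFReal 0 t z)) :=
    ((integrable_gaussianPDFReal 0 t).const_mul _).add ((int_sq t ht).1.const_mul 2)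
  refine h1.mono' ?_ (ae_of_all _ fun z => ?_)
  · exact ((hG.comp (measurable_id.add_const c)).mul (measurable_gaussianPDFReal 0 t)).aestronglyMeasurable
  · have hp := gaussianPDFReal_nonneg 0 t z
    rw [Real.norm_eq_abs, abs_mul, abs_of_nonneg hp]
    have h2 : |G (z + c)| ≤ (1 + 2 * c ^ 2) + 2 * z ^ 2 := by
      refine (hb _).trans ?_
      nlinarith [sq_nonneg (z - c)]
    calc |G (z + c)| * gaussianPDFReal 0 t z ≤ ((1 + 2 * c ^ 2) + 2 * z ^ 2) * gaussianPDFReal 0 t z :=
          mul_le_mul_of_nonneg_right h2 hp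
      _ = _ := by ring

/-- the transformation -/
private theorem TR (t : ℝ≥0) (ht : 0 < t) (x : ℝ) (hx : 0 < x) (g : ℝ → ℝ) (hg : Measurable g)
    (hg0 : ∀ y, 0 < y → 0 ≤ g y) (hb : ∀ z, |g z| ≤ 1 + z ^ 2) :
    Integrable (fun z : ℝ => ((Ioi (0 : ℝ)).indicator g (z + x) - (Ioi (0 : ℝ)).indicator g (z - x)) *
      gaussianPDFReal 0 t z) ∧
    KQ t (fun y => ENNReal.ofReal (g y)) x =
      ENNReal.ofReal (∫ z : ℝ, ((Ioi (0 : ℝ)).indicator g (z + x) -
        (Ioi (0 : ℝ)).indicator g (z - x)) * gaussianPDFReal 0 t z) := by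
  set G : ℝ → ℝ := (Ioi (0 : ℝ)).indicator g with hGdef
  have hGm : Measurable G := hg.indicator measurableSet_Ioi
  have hGb : ∀ z, |G z| ≤ 1 + z ^ 2 := by
    intro z
    by_cases hz : z ∈ Ioi (0 : ℝ)
    · rw [hGdef, indicator_of_mem hz]; exact hb z
    · rw [hGdef, indicator_of_notMem hz]; simp; positivity
  have i1 := int_G t ht G hGm hGb x
  have i2 := int_G t ht G hGm hGb (-x)
  have j1 : Integrable (fun y : ℝ => G y * gaussianPDFReal 0 t (y - x)) := by
    have := i1.comp_sub_right x
    refine this.congr (ae_of_all _ fun y => ?_)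
    simp
  have j2 : Integrable (fun y : ℝ => G y * gaussianPDFReal 0 t (y + x)) := by
    have := i2.comp_add_right x
    refine this.congr (ae_of_all _ fun y => ?_)
    simp
  have e1 : ∫ y : ℝ, G y * gaussianPDFReal 0 t (y - x) = ∫ z : ℝ, G (z + x) * gaussianPDFReal 0 t z := by
    rw [← integral_sub_right_eq_self (fun z : ℝ => G (z + x) * gaussianPDFReal 0 t z) x]
    congr 1; ext y; simp
  have e2 : ∫ y : ℝ, G y * gaussianPDFReal 0 t (y + x) = ∫ z : ℝ, G (z - x) * gaussianPDFReal 0 t z := by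
    rw [← integral_add_right_eq_self (fun z : ℝ => G (z - x) * gaussianPDFReal 0 t z) x]
    congr 1; ext y; simp
  have i2' : Integrable (fun z : ℝ => G (z - x) * gaussianPDFReal 0 t z) := by
    simpa [sub_eq_add_neg] using i2
  have hI : Integrable (fun y : ℝ => G y * gaussianPDFReal 0 t (y - x) -
      G y * gaussianPDFReal 0 t (y + x)) := j1.sub j2
  constructor
  · refine (i1.sub i2').congr (ae_of_all _ fun z => ?_)
    simp only [Pi.sub_apply]
    ring
  · have hset : ∀ y ∈ Ioi (0 : ℝ), ENNReal.ofReal (hk t x y) * ENNReal.ofReal (g y) =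
        ENNReal.ofReal (G y * gaussianPDFReal 0 t (y - x) - G y * gaussianPDFReal 0 t (y + x)) := by
      intro y hy
      rw [← ENNReal.ofReal_mul (hk_nonneg t ht hx hy), hk_eq, hGdef, indicator_of_mem hy]
      congr 1
      ring
    unfold KQ
    rw [setLIntegral_congr_fun measurableSet_Ioi hset, ← ofReal_integral_eq_lintegral_ofReal]
    · congr 1
      rw [setIntegral_eq_integral_of_forall_compl_eq_zero]
      · rw [integral_sub j1 j2, e1, e2, ← integral_sub i1 i2']
        congr 1; ext z; ring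
      · intro y hy
        rw [hGdef, indicator_of_notMem hy]; simp
    · exact hI.integrableOn
    · refine (ae_restrict_iff' measurableSet_Ioi).mpr (ae_of_all _ fun y hy => ?_)
      have h := hk_nonneg t ht hx hy
      rw [hk_eq] at h
      simp only [Pi.zero_apply]
      rw [hGdef, indicator_of_mem hy, ← mul_sub]
      exact mul_nonneg (hg0 y hy) h

theorem t_KB1 : S_KB1 := by
  refine ⟨?_, ?_, ⟨12, ?_⟩⟩
  · intro t x ht hx
    have ht' : (0 : ℝ) < t := by exact_mod_cast ht
    have h := TR t ht x hx (fun _ => 1) measurable_const (fun _ _ => zero_le_one)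
      (fun z => by simp; positivity)
    simp only [ENNReal.ofReal_one] at h
    rw [h.2]
    apply ENNReal.ofReal_le_ofReal
    have hle : ∫ z : ℝ, ((Ioi (0 : ℝ)).indicator (fun _ => (1 : ℝ)) (z + x) -
        (Ioi (0 : ℝ)).indicator (fun _ => (1 : ℝ)) (z - x)) * gaussianPDFReal 0 t z ≤
        ∫ z : ℝ, (Ioc (-x) x).indicator (fun _ => gaussianPDFReal 0 t 0) z := by
      apply integral_mono h.1
      · exact (integrable_indicator_iff measurableSet_Ioc).mpr (by
          simp [integrableOn_const_iff])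
      · intro z
        have hp := gaussianPDFReal_nonneg 0 t z
        have hp0 := p_anti t ht (a := 0) (b := z) (by nlinarith [sq_nonneg z])
        simp only [indicator, mem_Ioi, mem_Ioc]
        split_ifs with h1 h2 h3 h3 h3 h4 <;> first | (exfalso; (try push Not at *); (try obtain ⟨_, _⟩ := h3); (try obtain ⟨_, _⟩ := h4); linarith) | nlinarith | skip
        all_goals simp_all
        all_goals linarith
    refine hle.trans ?_
    rw [integral_indicator measurableSet_Ioc]
    simp only [integral_const, MeasurableSet.univ, measureReal_restrict_apply, univ_inter, Real.volume_real_Ioc, smul_eq_mul]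
    rw [max_eq_left (by linarith)]
    unfold gaussianPDFReal
    simp only [sub_zero, ne_eq, OfNat.ofNat_ne_zero, not_false_eq_true, zero_pow, neg_zero, zero_div, Real.exp_zero, mul_one]
    have e : ((t : ℝ)) ^ (-(1 / 2) : ℝ) = (Real.sqrt t)⁻¹ := by
      rw [Real.rpow_neg ht'.le, Real.sqrt_eq_rpow]
    rw [e, Real.sqrt_mul (by positivity), mul_inv]
    have hpi : 2 ≤ Real.sqrt (2 * Real.pi) := by
      apply Real.le_sqrt_of_sq_le
      nlinarith [Real.pi_gt_three]
    have hinv : (Real.sqrt (2 * Real.pi))⁻¹ ≤ 2⁻¹ := inv_anti₀ (by norm_num) hpi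
    have hst : 0 ≤ (Real.sqrt (t : ℝ))⁻¹ := by positivity
    calc (x - -x) * ((Real.sqrt (2 * Real.pi))⁻¹ * (Real.sqrt (t : ℝ))⁻¹)
        ≤ (x - -x) * (2⁻¹ * (Real.sqrt (t : ℝ))⁻¹) := by
          apply mul_le_mul_of_nonneg_left _ (by linarith)
          exact mul_le_mul_of_nonneg_right hinv hst
      _ = x * (Real.sqrt (t : ℝ))⁻¹ := by ring
  · intro t x ht hx
    have h := TR t ht x hx (fun y => y) measurable_id (fun y hy => hy.le)
      (fun z => by
        rw [abs_le]; constructor <;> nlinarith [sq_nonneg (z - 1), sq_nonneg (z + 1)])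
    rw [h.2]
    apply ENNReal.ofReal_le_ofReal
    set ψ : ℝ → ℝ := fun z => ((Ioi (0 : ℝ)).indicator (fun y => y) (z + x) -
        (Ioi (0 : ℝ)).indicator (fun y => y) (z - x)) * gaussianPDFReal 0 t z with hψ
    have hneg : ∫ z : ℝ, ψ (-z) = ∫ z : ℝ, ψ z := integral_neg_eq_self ψ volume
    have hsum : ∫ z : ℝ, (ψ z + ψ (-z)) = 2 * x := by
      have : (fun z : ℝ => ψ z + ψ (-z)) = fun z => (2 * x) * gaussianPDFReal 0 t z := by
        ext z
        simp only [hψ, p_neg]
        rw [← add_mul]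
        congr 1
        simp only [indicator, mem_Ioi]
        split_ifs <;> linarith
      rw [this, integral_const_mul, integral_gaussianPDFReal_eq_one 0 (ne_of_gt ht), mul_one]
    rw [integral_add h.1 h.1.comp_neg, hneg] at hsum
    linarith
  · intro t x ht ht1 hx hx1
    have h := TR t ht x hx (fun y => y ^ 2) (by fun_prop) (fun y _ => sq_nonneg y)
      (fun z => by rw [abs_of_nonneg (sq_nonneg z)]; linarith)
    rw [h.2]
    have e : ((12 : ℝ≥0) : ℝ≥0∞) * ENNReal.ofReal x = ENNReal.ofReal (12 * x) := by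
      rw [ENNReal.ofReal_mul (by norm_num)]
      congr 1
      simp
    rw [e]
    apply ENNReal.ofReal_le_ofReal
    obtain ⟨hi, hv⟩ := int_sq t ht
    have hle : ∫ z : ℝ, ((Ioi (0 : ℝ)).indicator (fun y => y ^ 2) (z + x) -
        (Ioi (0 : ℝ)).indicator (fun y => y ^ 2) (z - x)) * gaussianPDFReal 0 t z ≤
        ∫ z : ℝ, (8 * x) * gaussianPDFReal 0 t z + (4 * x) * (z ^ 2 * gaussianPDFReal 0 t z) := by
      apply integral_mono h.1
      · exact ((integrable_gaussianPDFReal 0 t).const_mul _).add (hi.const_mul _)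
      · intro z
        have hp := gaussianPDFReal_nonneg 0 t z
        have key : (Ioi (0 : ℝ)).indicator (fun y : ℝ => y ^ 2) (z + x) -
            (Ioi (0 : ℝ)).indicator (fun y : ℝ => y ^ 2) (z - x) ≤ 8 * x + 4 * x * z ^ 2 := by
          simp only [indicator, mem_Ioi]
          split_ifs with h1 h2 h2
          · nlinarith [mul_nonneg hx.le (sq_nonneg (z - 1))]
          · nlinarith [mul_nonneg hx.le (sq_nonneg z)]
          · nlinarith
          · nlinarith [mul_nonneg hx.le (sq_nonneg z)]
        calc _ ≤ (8 * x + 4 * x * z ^ 2) * gaussianPDFReal 0 t z := mul_le_mul_of_nonneg_right key hp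
          _ = _ := by ring
    refine hle.trans ?_
    rw [integral_add ((integrable_gaussianPDFReal 0 t).const_mul _) (hi.const_mul _),
      integral_const_mul, integral_const_mul, hv, integral_gaussianPDFReal_eq_one 0 (ne_of_gt ht)]
    have ht1' : (t : ℝ) ≤ 1 := by exact_mod_cast ht1
    nlinarith

end Pool.Agent.R653.BWKB1
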